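import Pool.Agent.H311.PM.Blow

/-!
# Assembly: from bodies to the paraboloid, from the paraboloid to balls
-/

set_option autoImplicit false

open MeasureTheory Metric Set Filter Topology FourierTransform
open scoped ENNReal NNReal Real RealInnerProductSpace ContDiff SchwartzMap Pointwise

namespace Pool.Agent.H311.PM

theorem exists_basis {N k : ℕ} {f : Fin k → E N} (hf : LinearIndependent ℝ f) :
    ∃ (m : ℕ) (b : Module.Basis (Fin (k + m)) ℝ (E N)), ∀ i, b (Fin.castAdd m i) = f i := by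
  obtain ⟨W, hW⟩ := Submodule.exists_isCompl (Submodule.span ℝ (Set.range f))
  refine ⟨Module.finrank ℝ W, (((Module.Basis.span hf).prod (Module.finBasis ℝ W)).map
    (Submodule.prodEquivOfIsCompl _ W hW)).reindex finSumFinEquiv, fun i => ?_⟩
  simp [Module.Basis.span_apply]

variable {n : ℕ}

theorem blow {N : ℕ} {K : Set (E N)} (hKm : MeasurableSet K) {p : E N} {ℓ : E N →L[ℝ] ℝ}
    {Q : E N →L[ℝ] E N →L[ℝ] ℝ} (hK : Contact K p ℓ Q) (hp : ℓ p ≠ 0) (v : Fin n → E N)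
    (hv : ∀ i, ℓ (v i) = 0) (hQ : ∀ i j, Q (v i) (v j) = if i = j then 1 else 0) {C : ℝ≥0}
    (h : FM (fun R : {R : ℝ // 0 < R} => (R : ℝ) • K) C) :
    FM (fun r : ℝ => {ζ : E (n + 1) | pv n 0 ζ ≤ r}) C := by
  set w : E N := (ℓ p)⁻¹ • p with hw
  have hlw : ℓ w = 1 := by rw [hw, map_smul, smul_eq_mul, inv_mul_cancel₀ hp]
  have hvi : LinearIndependent ℝ v := by
    rw [Fintype.linearIndependent_iff]
    intro g hg j
    have h1 : Q (∑ i, g i • v i) (v j) = g j := by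
      rw [map_sum, _root_.sum_apply]
      simp [hQ]
    rw [hg] at h1
    simpa using h1.symm
  have hsn : LinearIndependent ℝ (Fin.snoc v w : Fin (n + 1) → E N) := by
    rw [linearIndependent_finSnoc]
    refine ⟨hvi, fun hmem => ?_⟩
    have h1 : Submodule.span ℝ (Set.range v) ≤ LinearMap.ker (ℓ : E N →ₗ[ℝ] ℝ) := by
      rw [Submodule.span_le]
      rintro _ ⟨i, rfl⟩
      exact hv i
    have h2 : ℓ w = 0 := h1 hmem
    rw [hlw] at h2
    exact one_ne_zero h2
  obtain ⟨m, b, hb⟩ := exists_basis hsn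
  have hN : N = n + 1 + m := by
    have := Module.finrank_eq_card_basis b
    simpa using this
  subst hN
  have hb1 : ∀ i : Fin n, b (i.castSucc.castAdd m) = v i := by
    intro i
    rw [hb, Fin.snoc_castSucc]
  have hb2 : b ((Fin.last n).castAdd m) = w := by
    rw [hb, Fin.snoc_last]
  set T : E (n + 1 + m) ≃ₗ[ℝ] E (n + 1 + m) :=
    (WithLp.linearEquiv 2 ℝ (Fin (n + 1 + m) → ℝ)).trans b.equivFun.symm with hT
  have hTa : ∀ ζ, T ζ = ∑ i, ζ i • b i := by
    intro ζ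
    rw [hT, LinearEquiv.trans_apply, Module.Basis.equivFun_symm_apply]
    rfl
  set δ : ℕ → ℝ := fun j => 1 / ((j : ℝ) + 1) with hδ
  have hδ0 : ∀ j, δ j ≠ 0 := fun j => by
    have : (0 : ℝ) < 1 / ((j : ℝ) + 1) := by positivity
    exact this.ne'
  have hδt : Tendsto δ atTop (𝓝[>] 0) := by
    rw [tendsto_nhdsWithin_iff]
    refine ⟨tendsto_one_div_add_atTop_nhds_zero_nat, Eventually.of_forall fun j => ?_⟩
    show (0 : ℝ) < 1 / ((j : ℝ) + 1)
    positivity
  classical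
  let φ : ℕ → ℝ → {R : ℝ // 0 < R} := fun j r =>
    if h : 0 < 1 + δ j ^ 2 * (r / ℓ p) then ⟨_, h⟩ else ⟨1, one_pos⟩
  have hmeas : ∀ (j : ℕ) (r : ℝ), MeasurableSet {ζ : E (n + 1 + m) | p + ζ ∈ (φ j r : ℝ) • K} :=
    fun j r => (measurable_const_add p) (hKm.const_smul₀ _)
  have hB : ∀ j, FM (fun r : ℝ => {ζ : E (n + 1 + m) |
      ((diag (wt n m (δ j)) (wt_ne n m (hδ0 j))).trans T) ζ ∈
        {ζ | p + ζ ∈ (φ j r : ℝ) • K}}) C := by
    intro j
    exact ((h.comp (φ j)).translate p).linear (hmeas j) _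
  refine drops n m ?_
  refine FM.of_tendsto (fun j r => ?_) (fun r => (continuous_pv n m).measurable measurableSet_Iic)
    hB fun r => ?_
  · exact (LinearMap.continuous_of_finiteDimensional
      ((((diag (wt n m (δ j)) (wt_ne n m (hδ0 j))).trans T) :
        E (n + 1 + m) ≃ₗ[ℝ] E (n + 1 + m)) :
        E (n + 1 + m) →ₗ[ℝ] E (n + 1 + m))).measurable (hmeas j r)
  · have hnull : ∀ᵐ ζ : E (n + 1 + m), pv n m ζ ≠ r := by
      rw [ae_iff]
      simpa using null_pv n m r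
    filter_upwards [hnull] with ζ hζ
    set V : E (n + 1 + m) := ∑ i : Fin n, ζ (i.castSucc.castAdd m) • v i with hV
    set U : E (n + 1 + m) := ∑ i : Fin m, ζ (Fin.natAdd (n + 1) i) • b (Fin.natAdd (n + 1) i)
      with hU
    have hlV : ℓ V = 0 := by
      rw [hV, map_sum]
      refine Finset.sum_eq_zero fun i _ => ?_
      rw [map_smul, hv i, smul_zero]
    have hQV : Q V V = ∑ i : Fin n, ζ (i.castSucc.castAdd m) ^ 2 := by
      rw [hV]
      simp only [map_sum, _root_.sum_apply, map_smul, _root_.smul_apply,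
        smul_eq_mul, hQ]
      simp [pow_two]
    have hpv : pv n m ζ = ζ ((Fin.last n).castAdd m) + Q V V := by
      rw [hQV]
      rfl
    have hmem := limit_mem hK hp V U hlV (ζ ((Fin.last n).castAdd m)) r (by rw [← hpv]; exact hζ)
    filter_upwards [hδt.eventually hmem] with j hj
    have hTd : ((diag (wt n m (δ j)) (wt_ne n m (hδ0 j))).trans T) ζ =
        δ j • V + δ j ^ 2 • (ζ ((Fin.last n).castAdd m) • w) + δ j ^ 3 • U := by
      rw [LinearEquiv.trans_apply, hTa, Fin.sum_univ_add, Fin.sum_univ_castSucc]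
      simp only [diag_apply, wt_tan, wt_nor, wt_oth, hb1, hb2]
      rw [hV, hU, Finset.smul_sum, Finset.smul_sum]
      simp only [smul_smul]
    have hφ : (φ j r : ℝ) = 1 + δ j ^ 2 * (r / ℓ p) := by
      simp only [φ]
      rw [dif_pos hj.1]
    show ((diag (wt n m (δ j)) (wt_ne n m (hδ0 j))).trans T) ζ ∈
        {ζ | p + ζ ∈ (φ j r : ℝ) • K} ↔ pv n m ζ ≤ r
    rw [hTd, hpv]
    show p + _ ∈ (φ j r : ℝ) • K ↔ _
    rw [hφ]
    exact hj.2

/-! ### From the paraboloid to balls -/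

/-- weights `1, …, 1, δ` -/
noncomputable def wb (n : ℕ) (δ : ℝ) (i : Fin (n + 1)) : ℝ :=
  Fin.lastCases (motive := fun _ => ℝ) δ (fun _ => 1) i

theorem wb_last (n : ℕ) (δ : ℝ) : wb n δ (Fin.last n) = δ := by simp [wb]

theorem wb_castSucc (n : ℕ) (δ : ℝ) (i : Fin n) : wb n δ i.castSucc = 1 := by simp [wb]

theorem wb_ne (n : ℕ) {δ : ℝ} (hδ : δ ≠ 0) (i : Fin (n + 1)) : wb n δ i ≠ 0 := by
  refine Fin.lastCases ?_ (fun j => ?_) i
  · rw [wb_last]; exact hδ
  · rw [wb_castSucc]; exact one_ne_zero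

theorem norm_init_sq (ζ : E (n + 1)) : ‖init n ζ‖ ^ 2 = ∑ i : Fin n, ζ i.castSucc ^ 2 := by
  rw [EuclideanSpace.norm_sq_eq]
  refine Finset.sum_congr rfl fun i _ => ?_
  rw [Real.norm_eq_abs, sq_abs]
  rfl

theorem null_cyl (hn : 1 ≤ n) (r : ℝ) : volume {ζ : E (n + 1) | ‖init n ζ‖ ^ 2 = r} = 0 := by
  have hne : Nonempty (Fin n) := ⟨⟨0, hn⟩⟩
  have h1 : volume {ξ : E n | ‖ξ‖ ^ 2 = r} = 0 := by
    refine measure_mono_null ?_ (Measure.addHaar_sphere volume (0 : E n) (√r))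
    intro ξ hξ
    have h2 : ‖ξ‖ ^ 2 = r := hξ
    rw [mem_sphere_zero_iff_norm, ← h2, Real.sqrt_sq (norm_nonneg _)]
  have hm : MeasurableSet {ζ : E (n + 1) | ‖init n ζ‖ ^ 2 = r} :=
    measurableSet_eq_fun ((measurable_init n).norm.pow_const 2) measurable_const
  rw [← (mp_comb n).measure_preimage hm.nullMeasurableSet]
  have h3 : comb n ⁻¹' {ζ : E (n + 1) | ‖init n ζ‖ ^ 2 = r} =
      (univ : Set ℝ) ×ˢ {ξ : E n | ‖ξ‖ ^ 2 = r} := by
    ext z
    constructor
    · intro h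
      refine ⟨mem_univ _, ?_⟩
      have h4 : ‖init n (comb n z)‖ ^ 2 = r := h
      rw [init_comb] at h4
      exact h4
    · rintro ⟨-, h⟩
      show ‖init n (comb n z)‖ ^ 2 = r
      rw [init_comb]
      exact h
  rw [h3, Measure.prod_prod, h1, mul_zero]

theorem ball_of_par (hn : 1 ≤ n) {C : ℝ≥0}
    (h : FM (fun r : ℝ => {ζ : E (n + 1) | pv n 0 ζ ≤ r}) C) :
    FM (fun R : ℝ => closedBall (0 : E n) R) C := by
  set δ : ℕ → ℝ := fun j => 1 / ((j : ℝ) + 1) with hδ
  have hδ0 : ∀ j, δ j ≠ 0 := fun j => by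
    have : (0 : ℝ) < 1 / ((j : ℝ) + 1) := by positivity
    exact this.ne'
  have hpm : ∀ r : ℝ, MeasurableSet {ζ : E (n + 1) | pv n 0 ζ ≤ r} := fun r =>
    (continuous_pv n 0).measurable measurableSet_Iic
  have hB : ∀ j, FM (fun r : ℝ => {ζ : E (n + 1) |
      (diag (wb n (δ j)) (wb_ne n (hδ0 j))) ζ ∈ {ζ | pv n 0 ζ ≤ r}}) C :=
    fun j => h.linear hpm _
  have hq : ∀ r : ℝ, MeasurableSet {ξ : E n | ‖ξ‖ ^ 2 ≤ r} := fun r =>
    (measurable_norm.pow_const 2) measurableSet_Iic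
  have h1 : FM (fun r : ℝ => {ξ : E n | ‖ξ‖ ^ 2 ≤ r}) C := by
    refine FM.drop hq ?_
    refine FM.of_tendsto (fun j r => ?_) (fun r => measurable_init n (hq r)) hB fun r => ?_
    · exact (LinearMap.continuous_of_finiteDimensional
        ((diag (wb n (δ j)) (wb_ne n (hδ0 j)) : E (n + 1) ≃ₗ[ℝ] E (n + 1)) :
          E (n + 1) →ₗ[ℝ] E (n + 1))).measurable (hpm r)
    · have hnull : ∀ᵐ ζ : E (n + 1), ‖init n ζ‖ ^ 2 ≠ r := by
        rw [ae_iff]
        simpa using null_cyl hn r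
      filter_upwards [hnull] with ζ hζ
      have hval : ∀ j, pv n 0 ((diag (wb n (δ j)) (wb_ne n (hδ0 j))) ζ) =
          δ j * ζ (Fin.last n) + ‖init n ζ‖ ^ 2 := by
        intro j
        rw [norm_init_sq]
        have h2 : pv n 0 ((diag (wb n (δ j)) (wb_ne n (hδ0 j))) ζ) =
          wb n (δ j) (Fin.last n) * ζ (Fin.last n) +
            ∑ i : Fin n, (wb n (δ j) i.castSucc * ζ i.castSucc) ^ 2 := rfl
        rw [h2]
        simp only [wb_last, wb_castSucc, one_mul]
      have hlim : Tendsto (fun j => δ j * ζ (Fin.last n) + ‖init n ζ‖ ^ 2) atTop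
          (𝓝 (‖init n ζ‖ ^ 2)) := by
        have h3 : Tendsto δ atTop (𝓝 0) := tendsto_one_div_add_atTop_nhds_zero_nat
        have h4 := (h3.mul_const (ζ (Fin.last n))).add_const (‖init n ζ‖ ^ 2)
        simpa using h4
      rcases lt_or_gt_of_ne hζ with hlt | hgt
      · filter_upwards [hlim.eventually_lt_const hlt] with j hj
        constructor
        · intro _
          exact hlt.le
        · intro _
          show pv n 0 _ ≤ r
          rw [hval]
          exact hj.le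
      · filter_upwards [hlim.eventually_const_lt hgt] with j hj
        constructor
        · intro h5
          have h6 : pv n 0 ((diag (wb n (δ j)) (wb_ne n (hδ0 j))) ζ) ≤ r := h5
          rw [hval] at h6
          exact absurd h6 (not_le.2 hj)
        · intro h5
          exact absurd h5 (not_le.2 hgt)
  have h2 := h1.comp (fun R : ℝ => if R < 0 then -1 else R ^ 2)
  have h3 : (fun R : ℝ => closedBall (0 : E n) R) =
      fun R : ℝ => {ξ : E n | ‖ξ‖ ^ 2 ≤ if R < 0 then -1 else R ^ 2} := by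
    ext R ξ
    rw [mem_closedBall_zero_iff]
    show ‖ξ‖ ≤ R ↔ ‖ξ‖ ^ 2 ≤ if R < 0 then -1 else R ^ 2
    split_ifs with hR
    · constructor
      · intro h; linarith [norm_nonneg ξ]
      · intro h; nlinarith [sq_nonneg ‖ξ‖]
    · rw [sq_le_sq₀ (norm_nonneg _) (not_lt.1 hR)]
  rw [h3]
  exact h2

end Pool.Agent.H311.PM
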