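import Mathlib

/-!
# Maximal partial integrals over finite families of sets: stability under limits and affine maps
-/

set_option autoImplicit false

open MeasureTheory Metric Set Filter Topology
open scoped ENNReal NNReal Real RealInnerProductSpace ContDiff

namespace Pool.Agent.H311.PM

/-- Euclidean space -/
abbrev E (n : ℕ) := EuclideanSpace ℝ (Fin n)

/-- `∫_A G(ξ) e^{2πi x·ξ} dξ` -/
noncomputable def I {n : ℕ} (A : Set (E n)) (G : E n → ℂ) (x : E n) : ℂ :=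
  ∫ ξ in A, Complex.exp (2 * Real.pi * Complex.I * ((⟪x, ξ⟫ : ℝ) : ℂ)) * G ξ

/-- the character -/
noncomputable def ee {n : ℕ} (x ξ : E n) : ℂ :=
  Complex.exp (2 * Real.pi * Complex.I * ((⟪x, ξ⟫ : ℝ) : ℂ))

variable {n : ℕ}

theorem norm_ee (x ξ : E n) : ‖ee x ξ‖ = 1 := by
  unfold ee
  rw [show (2 * Real.pi * Complex.I * ((⟪x, ξ⟫ : ℝ) : ℂ)) =
    ((2 * Real.pi * ⟪x, ξ⟫ : ℝ) : ℂ) * Complex.I by push_cast; ring]
  exact Complex.norm_exp_ofReal_mul_I _

theorem continuous_ee (x : E n) : Continuous (ee x) := by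
  unfold ee
  fun_prop

theorem continuous_ee' (ξ : E n) : Continuous (fun x : E n => ee x ξ) := by
  unfold ee
  fun_prop

/-- maximal inequality for finite subfamilies and smooth compactly supported functions -/
def FM {n : ℕ} {ι : Type*} (𝒜 : ι → Set (E n)) (C : ℝ≥0) : Prop :=
  ∀ (F : Finset ι) (G : E n → ℂ), ContDiff ℝ ∞ G → HasCompactSupport G →
    ∫⁻ x, (F.sup fun i => ‖I (𝒜 i) G x‖ₑ) ^ 2 ≤ C * ∫⁻ ξ, ‖G ξ‖ₑ ^ 2

theorem integrable_ee_mul {G : E n → ℂ} (hG : Integrable G) (x : E n) :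
    Integrable fun ξ => ee x ξ * G ξ := by
  refine hG.bdd_mul (c := 1) (continuous_ee x).aestronglyMeasurable ?_
  exact Eventually.of_forall fun ξ => (norm_ee x ξ).le

theorem I_eq_indicator {A : Set (E n)} (hA : MeasurableSet A) (G : E n → ℂ) (x : E n) :
    I A G x = ∫ ξ, A.indicator (fun ξ => ee x ξ * G ξ) ξ := by
  unfold I
  rw [integral_indicator hA]
  rfl

theorem continuous_I {A : Set (E n)} {G : E n → ℂ} (hG : Integrable G) :
    Continuous (I A G) := by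
  have h : I A G = fun x => ∫ ξ in A, ee x ξ * G ξ := rfl
  rw [h]
  refine continuous_of_dominated (bound := fun ξ => ‖G ξ‖) ?_ ?_ hG.norm.integrableOn ?_
  · intro x
    exact (integrable_ee_mul hG x).aestronglyMeasurable.restrict
  · intro x
    refine Eventually.of_forall fun ξ => ?_
    rw [norm_mul, norm_ee, one_mul]
  · refine Eventually.of_forall fun ξ => ?_
    exact (continuous_ee' ξ).mul continuous_const

theorem tendsto_I {A : ℕ → Set (E n)} {B : Set (E n)} (hA : ∀ j, MeasurableSet (A j))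
    (hB : MeasurableSet B) {G : E n → ℂ} (hG : Integrable G)
    (h : ∀ᵐ ζ, ∀ᶠ j in atTop, (ζ ∈ A j ↔ ζ ∈ B)) (x : E n) :
    Tendsto (fun j => I (A j) G x) atTop (𝓝 (I B G x)) := by
  rw [I_eq_indicator hB]
  simp_rw [I_eq_indicator (hA _)]
  refine tendsto_integral_of_dominated_convergence (fun ξ => ‖G ξ‖) ?_ hG.norm ?_ ?_
  · intro j
    exact (integrable_ee_mul hG x).aestronglyMeasurable.indicator (hA j)
  · intro j
    refine Eventually.of_forall fun ξ => ?_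
    refine (norm_indicator_le_norm_self _ _).trans ?_
    rw [norm_mul, norm_ee, one_mul]
  · filter_upwards [h] with ζ hζ
    refine tendsto_const_nhds.congr' ?_
    filter_upwards [hζ] with j hj
    by_cases hb : ζ ∈ B
    · rw [indicator_of_mem hb, indicator_of_mem (hj.2 hb)]
    · rw [indicator_of_notMem hb, indicator_of_notMem (fun h => hb (hj.1 h))]

theorem measurable_sup {ι : Type*} {𝒜 : ι → Set (E n)} (F : Finset ι) {G : E n → ℂ}
    (hG : Integrable G) : Measurable fun x => (F.sup fun i => ‖I (𝒜 i) G x‖ₑ) ^ 2 := by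
  refine Measurable.pow_const ?_ 2
  have : (fun x => F.sup fun i => ‖I (𝒜 i) G x‖ₑ) = F.sup fun i x => ‖I (𝒜 i) G x‖ₑ := by
    ext x
    rw [Finset.sup_apply]
  rw [this]
  refine Finset.sup_induction measurable_const (fun f hf g hg => hf.sup hg) fun i _ => ?_
  exact (continuous_I hG).enorm.measurable

/-- LIMITS -/
theorem FM.of_tendsto {κ : Type*} {B : ℕ → κ → Set (E n)} {B' : κ → Set (E n)} {C : ℝ≥0}
    (hB : ∀ j k, MeasurableSet (B j k)) (hB' : ∀ k, MeasurableSet (B' k))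
    (h : ∀ j, FM (B j) C)
    (hlim : ∀ k, ∀ᵐ ζ : E n, ∀ᶠ j in atTop, (ζ ∈ B j k ↔ ζ ∈ B' k)) : FM B' C := by
  intro F G hG hGc
  have hGi : Integrable G := hG.continuous.integrable_of_hasCompactSupport hGc
  have h1 : ∀ x, (F.sup fun i => ‖I (B' i) G x‖ₑ) ^ 2 =
      liminf (fun j => (F.sup fun i => ‖I (B j i) G x‖ₑ) ^ 2) atTop := by
    intro x
    symm
    refine Tendsto.liminf_eq ?_
    refine Tendsto.comp (ENNReal.continuous_pow 2).continuousAt ?_
    refine Tendsto.finset_sup_nhds_apply fun i _ => ?_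
    exact (tendsto_I (fun j => hB j i) (hB' i) hGi (hlim i) x).enorm
  simp_rw [h1]
  refine (lintegral_liminf_le fun j => measurable_sup F hGi).trans ?_
  refine (liminf_le_liminf (Eventually.of_forall fun j => h j F G hG hGc)).trans ?_
  simp

/-- TRANSLATIONS -/
theorem FM.translate {ι : Type*} {𝒜 : ι → Set (E n)} {C : ℝ≥0} (h : FM 𝒜 C) (p : E n) :
    FM (fun i => {ζ | p + ζ ∈ 𝒜 i}) C := by
  intro F G hG hGc
  have h1 := h F (fun ξ => G (ξ - p)) (hG.comp (contDiff_id.sub contDiff_const))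
    (hGc.comp_homeomorph (Homeomorph.subRight p))
  have h2 : ∀ i x, ‖I (𝒜 i) (fun ξ => G (ξ - p)) x‖ₑ = ‖I {ζ | p + ζ ∈ 𝒜 i} G x‖ₑ := by
    intro i x
    have h3 : I (𝒜 i) (fun ξ => G (ξ - p)) x = ee x p * I {ζ | p + ζ ∈ 𝒜 i} G x := by
      unfold I
      have h4 := (measurePreserving_add_left (volume : Measure (E n)) p).setIntegral_preimage_emb
        (MeasurableEquiv.addLeft p).measurableEmbedding
        (fun ξ => Complex.exp (2 * Real.pi * Complex.I * ((⟪x, ξ⟫ : ℝ) : ℂ)) * G (ξ - p)) (𝒜 i)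
      rw [← h4, ← integral_const_mul]
      refine integral_congr_ae (Eventually.of_forall fun ζ => ?_)
      simp only [ee, inner_add_right, add_sub_cancel_left]
      rw [← mul_assoc, ← Complex.exp_add]
      congr 2
      push_cast
      ring
    rw [h3, enorm_mul, ← ofReal_norm, norm_ee, ENNReal.ofReal_one, one_mul]
  have h3 : ∫⁻ ξ, ‖G (ξ - p)‖ₑ ^ 2 = ∫⁻ ξ, ‖G ξ‖ₑ ^ 2 :=
    lintegral_sub_right_eq_self (fun ξ => ‖G ξ‖ₑ ^ 2) p
  simp_rw [h2] at h1
  rw [h3] at h1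
  exact h1

theorem mul_finset_sup {ι : Type*} (F : Finset ι) (c : ℝ≥0∞) (f : ι → ℝ≥0∞) :
    c * F.sup f = F.sup fun i => c * f i := by
  have hm : Monotone (fun x : ℝ≥0∞ => c * x) := fun a b hab => mul_le_mul_right hab c
  exact Finset.apply_sup_eq_sup_comp (fun x => c * x) (fun x y => hm.map_sup x y) (mul_zero c)

theorem det_adjoint (T : E n →ₗ[ℝ] E n) : LinearMap.det (LinearMap.adjoint T) =
    LinearMap.det T := by
  have b := stdOrthonormalBasis ℝ (E n)
  rw [← LinearMap.det_toMatrix b.toBasis, ← LinearMap.det_toMatrix b.toBasis,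
    LinearMap.toMatrix_adjoint, Matrix.det_conjTranspose]
  rfl

theorem lintegral_comp_linear {T : E n →ₗ[ℝ] E n} (hT : LinearMap.det T ≠ 0)
    {f : E n → ℝ≥0∞} (hf : Measurable f) :
    ∫⁻ x, f (T x) = ENNReal.ofReal |(LinearMap.det T)⁻¹| * ∫⁻ x, f x := by
  have h1 := Measure.map_linearMap_addHaar_eq_smul_addHaar (volume : Measure (E n)) hT
  have h2 : ∫⁻ x, f x ∂(Measure.map T volume) = ∫⁻ x, f (T x) :=
    lintegral_map hf (LinearMap.continuous_of_finiteDimensional T).measurable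
  rw [← h2, h1, lintegral_smul_measure]
  rfl

theorem integral_comp_linear (T : E n ≃ₗ[ℝ] E n) (f : E n → ℂ) :
    ∫ x, f (T x) = |(LinearMap.det (T : E n →ₗ[ℝ] E n))⁻¹| • ∫ x, f x := by
  have hT : LinearMap.det (T : E n →ₗ[ℝ] E n) ≠ 0 := T.isUnit_det'.ne_zero
  have h1 := Measure.map_linearMap_addHaar_eq_smul_addHaar (volume : Measure (E n)) hT
  have h2 : ∫ x, f x ∂(Measure.map T volume) = ∫ x, f (T x) :=
    (T.toContinuousLinearEquiv.toHomeomorph.toMeasurableEquiv.measurableEmbedding).integral_map f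
  have h3 : Measure.map T volume = ENNReal.ofReal |(LinearMap.det (T : E n →ₗ[ℝ] E n))⁻¹| •
      (volume : Measure (E n)) := h1
  rw [← h2, h3, integral_smul_measure, ENNReal.toReal_ofReal (abs_nonneg _)]

/-- LINEAR MAPS -/
theorem FM.linear {ι : Type*} {𝒜 : ι → Set (E n)} {C : ℝ≥0} (h : FM 𝒜 C)
    (h𝒜 : ∀ i, MeasurableSet (𝒜 i)) (T : E n ≃ₗ[ℝ] E n) :
    FM (fun i => {ζ | T ζ ∈ 𝒜 i}) C := by
  intro F G hG hGc
  have hGi : Integrable G := hG.continuous.integrable_of_hasCompactSupport hGc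
  set c : ℝ := |(LinearMap.det (T : E n →ₗ[ℝ] E n))⁻¹| with hc
  have hT : LinearMap.det (T : E n →ₗ[ℝ] E n) ≠ 0 := T.isUnit_det'.ne_zero
  have hc0 : 0 < c := abs_pos.2 (inv_ne_zero hT)
  have hTc : Continuous T := LinearMap.continuous_of_finiteDimensional (T : E n →ₗ[ℝ] E n)
  have hTs : Continuous T.symm :=
    LinearMap.continuous_of_finiteDimensional (T.symm : E n →ₗ[ℝ] E n)
  have h1 := h F (fun ξ => G (T.symm ξ))
    (hG.comp T.symm.toContinuousLinearEquiv.contDiff)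
    (hGc.comp_homeomorph T.symm.toContinuousLinearEquiv.toHomeomorph)
  have h2 : ∀ i x, I {ζ | T ζ ∈ 𝒜 i} G (LinearMap.adjoint (T : E n →ₗ[ℝ] E n) x) =
      (c : ℂ) * I (𝒜 i) (fun ξ => G (T.symm ξ)) x := by
    intro i x
    have hm : MeasurableSet {ζ | T ζ ∈ 𝒜 i} := hTc.measurable (h𝒜 i)
    rw [I_eq_indicator hm, I_eq_indicator (h𝒜 i)]
    have := integral_comp_linear T ((𝒜 i).indicator fun ξ => ee x ξ * G (T.symm ξ))
    rw [← hc, Complex.real_smul] at this
    rw [← this]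
    refine integral_congr_ae (Eventually.of_forall fun ζ => ?_)
    have h3 : ee (LinearMap.adjoint (T : E n →ₗ[ℝ] E n) x) ζ = ee x (T ζ) := by
      unfold ee
      rw [LinearMap.adjoint_inner_left]
      rfl
    by_cases hz : T ζ ∈ 𝒜 i
    · simp only
      rw [indicator_of_mem (show ζ ∈ {ζ | T ζ ∈ 𝒜 i} from hz), indicator_of_mem hz, h3,
        LinearEquiv.symm_apply_apply]
    · simp only
      rw [indicator_of_notMem (show ζ ∉ {ζ | T ζ ∈ 𝒜 i} from hz), indicator_of_notMem hz]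
  have hGs : Integrable fun ξ => G (T.symm ξ) := by
    refine Continuous.integrable_of_hasCompactSupport (hG.continuous.comp hTs)
      (hGc.comp_homeomorph T.symm.toContinuousLinearEquiv.toHomeomorph)
  have h4 : ∫⁻ ξ, ‖G (T.symm ξ)‖ₑ ^ 2 = ENNReal.ofReal c⁻¹ * ∫⁻ ξ, ‖G ξ‖ₑ ^ 2 := by
    have h5 := lintegral_comp_linear (T := (T.symm : E n →ₗ[ℝ] E n)) T.symm.isUnit_det'.ne_zero
      (f := fun ξ => ‖G ξ‖ₑ ^ 2) (hG.continuous.enorm.measurable.pow_const 2)
    have h6 : |(LinearMap.det (T.symm : E n →ₗ[ℝ] E n))⁻¹| = c⁻¹ := by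
      rw [hc, LinearEquiv.det_coe_symm, inv_inv, abs_inv, inv_inv]
    rw [h6] at h5
    exact h5
  have h7 : ∫⁻ x, (F.sup fun i => ‖I {ζ | T ζ ∈ 𝒜 i} G x‖ₑ) ^ 2 =
      ENNReal.ofReal c * ∫⁻ x, (F.sup fun i => ‖I (𝒜 i) (fun ξ => G (T.symm ξ)) x‖ₑ) ^ 2 := by
    have h8 := lintegral_comp_linear (T := LinearMap.adjoint (T : E n →ₗ[ℝ] E n))
      (by rw [det_adjoint]; exact hT) (measurable_sup (𝒜 := fun i => {ζ | T ζ ∈ 𝒜 i}) F hGi)
    rw [det_adjoint, ← hc] at h8
    have h9 : ∀ x, (F.sup fun i => ‖I {ζ | T ζ ∈ 𝒜 i} G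
        (LinearMap.adjoint (T : E n →ₗ[ℝ] E n) x)‖ₑ) ^ 2 = ENNReal.ofReal c ^ 2 *
        (F.sup fun i => ‖I (𝒜 i) (fun ξ => G (T.symm ξ)) x‖ₑ) ^ 2 := by
      intro x
      rw [← mul_pow]
      congr 1
      have : ∀ i, ‖I {ζ | T ζ ∈ 𝒜 i} G (LinearMap.adjoint (T : E n →ₗ[ℝ] E n) x)‖ₑ =
          ENNReal.ofReal c * ‖I (𝒜 i) (fun ξ => G (T.symm ξ)) x‖ₑ := by
        intro i
        rw [h2 i x, enorm_mul]
        congr 1
        rw [← ofReal_norm, Complex.norm_real, Real.norm_of_nonneg hc0.le]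
      simp_rw [this]
      exact (mul_finset_sup _ _ _).symm
    simp_rw [h9] at h8
    rw [lintegral_const_mul _ (measurable_sup F hGs)] at h8
    have h10 : ENNReal.ofReal c ≠ 0 := (ENNReal.ofReal_pos.2 hc0).ne'
    have h11 : ENNReal.ofReal c ≠ ⊤ := ENNReal.ofReal_ne_top
    rw [pow_two, mul_assoc] at h8
    exact ((ENNReal.mul_right_inj h10 h11).1 h8).symm
  rw [h7]
  refine (mul_le_mul_right h1 _).trans ?_
  rw [h4, ← mul_assoc, ← mul_assoc, mul_comm (ENNReal.ofReal c) _, mul_assoc (C : ℝ≥0∞),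
    ← ENNReal.ofReal_mul hc0.le, mul_inv_cancel₀ hc0.ne', ENNReal.ofReal_one, mul_one]

end Pool.Agent.H311.PM
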