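import Pool.Agent.H311.PM.Schw

/-!
# The blow-up of a body at a boundary point with `n` positive curvatures
-/

set_option autoImplicit false

open MeasureTheory Metric Set Filter Topology FourierTransform
open scoped ENNReal NNReal Real RealInnerProductSpace ContDiff SchwartzMap Pointwise

namespace Pool.Agent.H311.PM

/-- the paraboloid function `ζ_n + ∑_{i<n} ζ_i²` -/
noncomputable def pv (n m : ℕ) (ζ : E (n + 1 + m)) : ℝ :=
  ζ ((Fin.last n).castAdd m) + ∑ i : Fin n, ζ (i.castSucc.castAdd m) ^ 2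

theorem continuous_pv (n m : ℕ) : Continuous (pv n m) := by
  unfold pv
  fun_prop

theorem pv_succ (n m : ℕ) (ζ : E (n + 1 + m + 1)) : pv n m (init (n + 1 + m) ζ) =
    pv n (m + 1) ζ := rfl

theorem drops (n m : ℕ) {C : ℝ≥0} (h : FM (fun r : ℝ => {ζ | pv n m ζ ≤ r}) C) :
    FM (fun r : ℝ => {ζ | pv n 0 ζ ≤ r}) C := by
  induction m with
  | zero => exact h
  | succ m ih =>
    refine ih ?_
    exact FM.drop (fun r => (continuous_pv n m).measurable measurableSet_Iic) h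

/-- level sets of the paraboloid function are null sets -/
theorem null_pv (n m : ℕ) (r : ℝ) : volume {ζ | pv n m ζ = r} = 0 := by
  have h1 := Measure.countable_meas_level_set_pos (μ := (volume : Measure (E (n + 1 + m))))
    (continuous_pv n m).measurable
  have h2 : ∃ t : ℝ, ¬ 0 < volume {ζ | pv n m ζ = t} := by
    by_contra hcon
    push Not at hcon
    refine Cardinal.not_countable_real (h1.mono fun t _ => hcon t)
  obtain ⟨t, ht⟩ := h2
  have h3 : volume {ζ | pv n m ζ = t} = 0 := le_antisymm (not_lt.1 ht) bot_le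
  set e : E (n + 1 + m) := EuclideanSpace.single ((Fin.last n).castAdd m) (t - r) with he
  have h4 : (fun ζ => e + ζ) ⁻¹' {ζ | pv n m ζ = t} = {ζ | pv n m ζ = r} := by
    ext ζ
    show pv n m (e + ζ) = t ↔ pv n m ζ = r
    have h5 : pv n m (e + ζ) = t - r + pv n m ζ := by
      unfold pv
      have h6 : ∀ i : Fin n, (e + ζ) (i.castSucc.castAdd m) = ζ (i.castSucc.castAdd m) := by
        intro i
        rw [PiLp.add_apply, he, PiLp.single_apply, if_neg, zero_add]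
        intro h7
        have h8 := congrArg Fin.val h7
        simp only [Fin.val_castAdd, Fin.val_castSucc, Fin.val_last] at h8
        have := i.isLt
        omega
      simp_rw [h6]
      rw [PiLp.add_apply, he, PiLp.single_apply, if_pos rfl]
      ring
    rw [h5]
    constructor
    · intro h; linarith
    · intro h; linarith
  rw [← h4, measure_preimage_add]
  exact h3

/-- diagonal maps -/
noncomputable def diag {N : ℕ} (d : Fin N → ℝ) (hd : ∀ i, d i ≠ 0) : E N ≃ₗ[ℝ] E N where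
  toFun ζ := WithLp.toLp 2 fun i => d i * ζ i
  map_add' ζ η := by
    ext i
    simp [mul_add]
  map_smul' c ζ := by
    ext i
    simp only [PiLp.smul_apply, smul_eq_mul, RingHom.id_apply]
    ring
  invFun ζ := WithLp.toLp 2 fun i => (d i)⁻¹ * ζ i
  left_inv ζ := by
    ext i
    simp [hd i]
  right_inv ζ := by
    ext i
    simp [hd i]

theorem diag_apply {N : ℕ} (d : Fin N → ℝ) (hd : ∀ i, d i ≠ 0) (ζ : E N) (i : Fin N) :
    diag d hd ζ i = d i * ζ i := rfl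

/-- the scaling weights `δ, δ², δ³` -/
noncomputable def wt (n m : ℕ) (δ : ℝ) (i : Fin (n + 1 + m)) : ℝ :=
  Fin.addCases (motive := fun _ => ℝ) (Fin.lastCases (motive := fun _ => ℝ) (δ ^ 2) (fun _ => δ))
    (fun _ => δ ^ 3) i

theorem wt_tan (n m : ℕ) (δ : ℝ) (i : Fin n) : wt n m δ (i.castSucc.castAdd m) = δ := by
  simp [wt]

theorem wt_nor (n m : ℕ) (δ : ℝ) : wt n m δ ((Fin.last n).castAdd m) = δ ^ 2 := by
  simp [wt]

theorem wt_oth (n m : ℕ) (δ : ℝ) (i : Fin m) : wt n m δ (Fin.natAdd (n + 1) i) = δ ^ 3 := by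
  simp [wt]

theorem wt_ne (n m : ℕ) {δ : ℝ} (hδ : δ ≠ 0) (i : Fin (n + 1 + m)) : wt n m δ i ≠ 0 := by
  refine Fin.addCases (fun j => ?_) (fun j => ?_) i
  · refine Fin.lastCases ?_ (fun k => ?_) j
    · rw [wt_nor]; positivity
    · rw [wt_tan]; exact hδ
  · rw [wt_oth]; positivity

/-- second order contact at `p` of the set `K` with `{h | ℓ h + Q h h < 0}` -/
def Contact {N : ℕ} (K : Set (E N)) (p : E N) (ℓ : E N →L[ℝ] ℝ) (Q : E N →L[ℝ] E N →L[ℝ] ℝ) :
    Prop :=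
  ∀ ε : ℝ, 0 < ε → ∀ᶠ h in 𝓝 (0 : E N), (ℓ h + Q h h < -ε * ‖h‖ ^ 2 → p + h ∈ K) ∧
    (ε * ‖h‖ ^ 2 < ℓ h + Q h h → p + h ∉ K)

/-- The scaled displacement. -/
theorem limit_mem {N : ℕ} {K : Set (E N)} {p : E N} {ℓ : E N →L[ℝ] ℝ}
    {Q : E N →L[ℝ] E N →L[ℝ] ℝ} (hK : Contact K p ℓ Q) (hp : ℓ p ≠ 0) (V U : E N) (hV : ℓ V = 0)
    (z r : ℝ) (hne : z + Q V V ≠ r) :
    ∀ᶠ δ in 𝓝[>] (0 : ℝ), 0 < 1 + δ ^ 2 * (r / ℓ p) ∧
      (p + (δ • V + δ ^ 2 • (z • ((ℓ p)⁻¹ • p)) + δ ^ 3 • U) ∈ (1 + δ ^ 2 * (r / ℓ p)) • K ↔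
        z + Q V V ≤ r) := by
  set w : E N := (ℓ p)⁻¹ • p with hw
  have hlw : ℓ w = 1 := by rw [hw, map_smul, smul_eq_mul, inv_mul_cancel₀ hp]
  -- the functions of `δ`
  set ρ : ℝ → ℝ := fun δ => (1 + δ ^ 2 * (r / ℓ p))⁻¹ with hρ
  set Y : ℝ → E N := fun δ => V + δ • ((z - r) • w) + δ ^ 2 • U with hY
  set H : ℝ → E N := fun δ => (ρ δ * δ) • Y δ with hH
  set A : ℝ → ℝ := fun δ => ρ δ * ((z - r) + δ * ℓ U) + ρ δ ^ 2 * Q (Y δ) (Y δ) with hA
  set B : ℝ → ℝ := fun δ => ρ δ ^ 2 * ‖Y δ‖ ^ 2 with hB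
  have hρc : ContinuousAt ρ 0 := by
    refine ContinuousAt.inv₀ ?_ ?_
    · fun_prop
    · norm_num
  have hYc : Continuous Y := by
    rw [hY]; fun_prop
  have hAc : ContinuousAt A 0 := by
    refine (hρc.mul ?_).add ((hρc.pow 2).mul ?_)
    · fun_prop
    · have : Continuous fun δ => Q (Y δ) (Y δ) := by fun_prop
      exact this.continuousAt
  have hBc : ContinuousAt B 0 := by
    refine (hρc.pow 2).mul ?_
    exact (hYc.norm.pow 2).continuousAt
  have hHc : ContinuousAt H 0 := by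
    refine (hρc.mul continuousAt_id).smul hYc.continuousAt
  have hρ0 : ρ 0 = 1 := by simp [hρ]
  have hY0 : Y 0 = V := by simp [hY]
  have hA0 : A 0 = z - r + Q V V := by simp [hA, hρ0, hY0]
  have hB0 : B 0 = ‖V‖ ^ 2 := by simp [hB, hρ0, hY0]
  have hH0 : H 0 = 0 := by simp [hH]
  have hQY : ∀ δ, ℓ (H δ) + Q (H δ) (H δ) = δ ^ 2 * A δ := by
    intro δ
    have h1 : ℓ (H δ) = ρ δ * δ * (δ * (z - r) + δ ^ 2 * ℓ U) := by
      simp only [hH, hY, map_smul, map_add, hV, hlw, smul_eq_mul]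
      ring
    have h2 : Q (H δ) (H δ) = (ρ δ * δ) * ((ρ δ * δ) * Q (Y δ) (Y δ)) := by
      simp only [hH, map_smul, smul_eq_mul, _root_.smul_apply]
    rw [h1, h2, hA]
    ring
  have hHn : ∀ δ, ‖H δ‖ ^ 2 = δ ^ 2 * B δ := by
    intro δ
    simp only [hH, hB]
    rw [norm_smul, mul_pow, Real.norm_eq_abs, sq_abs]
    ring
  have hHt : Tendsto H (𝓝[>] 0) (𝓝 0) := by
    have := hHc.tendsto
    rw [hH0] at this
    exact this.mono_left nhdsWithin_le_nhds
  have hpos : ∀ᶠ δ in 𝓝[>] (0 : ℝ), 0 < 1 + δ ^ 2 * (r / ℓ p) := by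
    have h1 : ContinuousAt (fun δ : ℝ => 1 + δ ^ 2 * (r / ℓ p)) 0 := by fun_prop
    have h2 := h1.tendsto.eventually_const_lt (u := 0) (by norm_num)
    exact nhdsWithin_le_nhds h2
  have hmem : ∀ δ, 0 < 1 + δ ^ 2 * (r / ℓ p) →
      (p + (δ • V + δ ^ 2 • (z • w) + δ ^ 3 • U) ∈ (1 + δ ^ 2 * (r / ℓ p)) • K ↔
        p + H δ ∈ K) := by
    intro δ hδ
    rw [Set.mem_smul_set_iff_inv_smul_mem₀ hδ.ne']
    have h1 : (1 + δ ^ 2 * (r / ℓ p))⁻¹ • (p + (δ • V + δ ^ 2 • (z • w) + δ ^ 3 • U)) =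
        p + H δ := by
      have h2 : p = (1 + δ ^ 2 * (r / ℓ p))⁻¹ • (p + (δ ^ 2 * r) • w) := by
        rw [hw, smul_smul, show δ ^ 2 * r * (ℓ p)⁻¹ = δ ^ 2 * (r / ℓ p) by rw [div_eq_mul_inv]; ring]
        rw [show p + (δ ^ 2 * (r / ℓ p)) • p = (1 + δ ^ 2 * (r / ℓ p)) • p by
          rw [add_smul, one_smul], smul_smul, inv_mul_cancel₀ hδ.ne', one_smul]
      have h3 : H δ = (1 + δ ^ 2 * (r / ℓ p))⁻¹ • (δ • V + (δ ^ 2 * (z - r)) • w + δ ^ 3 • U) := by
        simp only [hH, hY, hρ, smul_add, smul_smul]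
        congr 1
        · congr 1
          congr 1
          ring
        · congr 1
          ring
      rw [h3]
      calc (1 + δ ^ 2 * (r / ℓ p))⁻¹ • (p + (δ • V + δ ^ 2 • (z • w) + δ ^ 3 • U))
          = (1 + δ ^ 2 * (r / ℓ p))⁻¹ • ((p + (δ ^ 2 * r) • w) +
            (δ • V + (δ ^ 2 * (z - r)) • w + δ ^ 3 • U)) := by
            congr 1
            simp only [smul_smul, mul_sub, sub_smul]
            abel
        _ = (1 + δ ^ 2 * (r / ℓ p))⁻¹ • (p + (δ ^ 2 * r) • w) + (1 + δ ^ 2 * (r / ℓ p))⁻¹ •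
            (δ • V + (δ ^ 2 * (z - r)) • w + δ ^ 3 • U) := smul_add _ _ _
        _ = _ := by rw [← h2]
    rw [h1]
  have key : ∀ g : ℝ, g = z - r + Q V V → g ≠ 0 → ∀ᶠ δ in 𝓝[>] (0 : ℝ),
      (g < 0 → p + H δ ∈ K) ∧ (0 < g → p + H δ ∉ K) := by
    intro g hg hg0
    set ε : ℝ := |g| / (2 * (‖V‖ ^ 2 + 1)) with hε
    have hε0 : 0 < ε := by
      have := abs_pos.2 hg0
      positivity
    have hεV : ε * (‖V‖ ^ 2 + 1) = |g| / 2 := by
      rw [hε]
      field_simp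
    have h1 : ∀ᶠ δ in 𝓝[>] (0 : ℝ), B δ < ‖V‖ ^ 2 + 1 := by
      have := hBc.tendsto.eventually_lt_const (u := ‖V‖ ^ 2 + 1) (by rw [hB0]; linarith)
      exact nhdsWithin_le_nhds this
    have h2 : ∀ᶠ δ in 𝓝[>] (0 : ℝ), g < 0 → A δ < g / 2 := by
      by_cases hgn : g < 0
      · have := hAc.tendsto.eventually_lt_const (u := g / 2) (by rw [hA0, ← hg]; linarith)
        exact Filter.Eventually.mono (nhdsWithin_le_nhds this) fun δ h _ => h
      · exact Eventually.of_forall fun δ h => absurd h hgn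
    have h3 : ∀ᶠ δ in 𝓝[>] (0 : ℝ), 0 < g → g / 2 < A δ := by
      by_cases hgn : 0 < g
      · have := hAc.tendsto.eventually_const_lt (u := g / 2) (by rw [hA0, ← hg]; linarith)
        exact Filter.Eventually.mono (nhdsWithin_le_nhds this) fun δ h _ => h
      · exact Eventually.of_forall fun δ h => absurd h hgn
    filter_upwards [h1, h2, h3, hHt.eventually (hK ε hε0), self_mem_nhdsWithin]
      with δ k1 k2 k3 k4 k5
    have hδ2 : 0 < δ ^ 2 := by
      have : (0 : ℝ) < δ := k5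
      positivity
    have hεB : ε * B δ < |g| / 2 := by
      rw [← hεV]
      exact mul_lt_mul_of_pos_left k1 hε0
    refine ⟨fun hgn => ?_, fun hgn => ?_⟩
    · apply k4.1
      rw [hQY, hHn]
      have h5 := k2 hgn
      rw [abs_of_neg hgn] at hεB
      nlinarith
    · apply k4.2
      rw [hQY, hHn]
      have h5 := k3 hgn
      rw [abs_of_pos hgn] at hεB
      nlinarith
  filter_upwards [hpos, key (z - r + Q V V) rfl (fun h => hne (by linarith))] with δ k1 k2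
  refine ⟨k1, ?_⟩
  rw [hmem δ k1]
  constructor
  · intro h
    by_contra hcon
    exact k2.2 (by linarith [not_le.1 hcon]) h
  · intro h
    refine k2.1 ?_
    rcases h.lt_or_eq with h' | h'
    · linarith
    · exact absurd h' hne

end Pool.Agent.H311.PM
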