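import Pool.Agent.H311.PM.Basic

/-!
# Dropping the last coordinate
-/

set_option autoImplicit false

open MeasureTheory Metric Set Filter Topology FourierTransform
open scoped ENNReal NNReal Real RealInnerProductSpace ContDiff SchwartzMap

namespace Pool.Agent.H311.PM

/-- append a last coordinate -/
noncomputable def comb (k : ℕ) : ℝ × E k ≃ᵐ E (k + 1) :=
  (((MeasurableEquiv.refl ℝ).prodCongr (MeasurableEquiv.toLp 2 (Fin k → ℝ)).symm).trans
    (MeasurableEquiv.piFinSuccAbove (fun _ : Fin (k + 1) => ℝ) (Fin.last k)).symm).trans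
    (MeasurableEquiv.toLp 2 (Fin (k + 1) → ℝ))

theorem comb_last (k : ℕ) (z : ℝ × E k) : comb k z (Fin.last k) = z.1 := by
  simp [comb, MeasurableEquiv.piFinSuccAbove]
  rfl

theorem comb_castSucc (k : ℕ) (z : ℝ × E k) (i : Fin k) : comb k z i.castSucc = z.2 i := by
  simp [comb, MeasurableEquiv.piFinSuccAbove]
  rfl

theorem mp_comb (k : ℕ) : MeasurePreserving (comb k) (volume.prod volume) volume := by
  unfold comb
  refine MeasurePreserving.trans (μb := volume) ?_ (PiLp.volume_preserving_toLp (Fin (k + 1)))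
  refine MeasurePreserving.trans (μb := volume) ?_
    (MeasurePreserving.symm _ (volume_preserving_piFinSuccAbove (fun _ : Fin (k + 1) => ℝ)
      (Fin.last k)))
  exact (MeasurePreserving.id volume).prod (PiLp.volume_preserving_ofLp (Fin k))

/-- forget the last coordinate -/
noncomputable def init (k : ℕ) (ζ : E (k + 1)) : E k := WithLp.toLp 2 fun i => ζ i.castSucc

theorem init_comb (k : ℕ) (z : ℝ × E k) : init k (comb k z) = z.2 := by
  unfold init
  ext i
  exact comb_castSucc k z i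

theorem comb_surj (k : ℕ) (ζ : E (k + 1)) : comb k (ζ (Fin.last k), init k ζ) = ζ := by
  ext i
  refine Fin.lastCases ?_ (fun j => ?_) i
  · exact comb_last k _
  · exact comb_castSucc k _ j

theorem contDiff_init (k : ℕ) : ContDiff ℝ ∞ (init k) := by
  unfold init
  refine contDiff_euclidean.2 (fun i => ?_)
  exact (contDiff_piLp_apply (p := 2) (i := i.castSucc) : ContDiff ℝ ∞ fun x : E (k + 1) => x i.castSucc)

theorem continuous_comb (k : ℕ) : Continuous (comb k) := by
  have : (comb k : ℝ × E k → E (k + 1)) = fun z => WithLp.toLp 2 (fun i => comb k z i) := by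
    ext z i
    rfl
  rw [this]
  refine (PiLp.continuous_toLp 2 (fun _ : Fin (k + 1) => ℝ)).comp (continuous_pi fun i => ?_)
  refine Fin.lastCases ?_ (fun j => ?_) i
  · simp only [comb_last]
    exact continuous_fst
  · simp only [comb_castSucc]
    fun_prop

theorem inner_comb (k : ℕ) (z w : ℝ × E k) : ⟪comb k z, comb k w⟫ = z.1 * w.1 + ⟪z.2, w.2⟫ := by
  rw [PiLp.inner_apply, PiLp.inner_apply, Fin.sum_univ_castSucc]
  simp only [comb_last, comb_castSucc]
  rw [add_comm]
  congr 1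
  simp [mul_comm]

theorem plancherel1 (f : 𝓢(ℝ, ℂ)) :
    ∫⁻ x, ‖f x‖ₑ ^ 2 = ∫⁻ x, ‖𝓕 (f : ℝ → ℂ) x‖ₑ ^ 2 := by
  have h1 := SchwartzMap.norm_fourier_toL2_eq f
  rw [SchwartzMap.norm_toLp, SchwartzMap.norm_toLp,
    ENNReal.toReal_eq_toReal_iff' ((𝓕 f).memLp 2 volume).2.ne (f.memLp 2 volume).2.ne] at h1
  have h2 : ∀ g : ℝ → ℂ, ∫⁻ x, ‖g x‖ₑ ^ 2 = eLpNorm g 2 volume ^ 2 := by
    intro g
    have := eLpNorm_nnreal_pow_eq_lintegral (f := g) (μ := volume) (p := 2) two_ne_zero
    simpa using this.symm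
  rw [h2, h2, ← h1]
  rfl

/-- the one-dimensional integral -/
noncomputable def J (χ : ℝ → ℂ) (t : ℝ) : ℂ :=
  ∫ s, Complex.exp (2 * Real.pi * Complex.I * ((t * s : ℝ) : ℂ)) * χ s

theorem lintegral_J {χ : ℝ → ℂ} (hχ : ContDiff ℝ ∞ χ) (hχc : HasCompactSupport χ) :
    ∫⁻ t, ‖J χ t‖ₑ ^ 2 = ∫⁻ s, ‖χ s‖ₑ ^ 2 := by
  set f : 𝓢(ℝ, ℂ) := 𝓕⁻ (hχc.toSchwartzMap hχ) with hf
  have h1 : ∀ t, J χ t = f t := by
    intro t
    rw [hf, SchwartzMap.fourierInv_coe, Real.fourierInv_eq']
    unfold J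
    refine integral_congr_ae (Eventually.of_forall fun s => ?_)
    simp only [smul_eq_mul]
    congr 1
    · congr 1
      simp only [RCLike.inner_apply, conj_trivial]
      push_cast
      ring
  have h2 : ∀ s, 𝓕 (f : ℝ → ℂ) s = χ s := by
    intro s
    have h3 : 𝓕 f = hχc.toSchwartzMap hχ := by rw [hf, fourier_fourierInv_eq]
    have h4 : (𝓕 f : 𝓢(ℝ, ℂ)) s = χ s := by rw [h3]; rfl
    rw [← SchwartzMap.fourier_coe]
    exact h4
  simp_rw [h1]
  rw [plancherel1]
  simp_rw [h2]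


theorem exists_chi : ∃ χ : ℝ → ℂ, ContDiff ℝ ∞ χ ∧ HasCompactSupport χ ∧
    (∫⁻ s, ‖χ s‖ₑ ^ 2) ≠ 0 ∧ (∫⁻ s, ‖χ s‖ₑ ^ 2) ≠ ⊤ := by
  let b : ContDiffBump (0 : ℝ) := ⟨1, 2, one_pos, by norm_num⟩
  have hb : ContDiff ℝ ∞ fun s => ((b s : ℝ) : ℂ) :=
    Complex.ofRealCLM.contDiff.comp b.contDiff
  have hbc : HasCompactSupport fun s => ((b s : ℝ) : ℂ) :=
    b.hasCompactSupport.comp_left (g := fun x : ℝ => (x : ℂ)) Complex.ofReal_zero
  refine ⟨fun s => ((b s : ℝ) : ℂ), hb, hbc, ?_, ?_⟩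
  · intro h0
    rw [lintegral_eq_zero_iff (hb.continuous.enorm.measurable.pow_const 2)] at h0
    have h1 : (fun s => ‖((b s : ℝ) : ℂ)‖ₑ ^ 2) = 0 := by
      refine Continuous.ae_eq_iff_eq (μ := (volume : Measure ℝ)) ?_ continuous_zero |>.1 h0
      exact (ENNReal.continuous_pow 2).comp hb.continuous.enorm
    have h2 := congrFun h1 0
    simp only [Pi.zero_apply] at h2
    have h3 : b (0 : ℝ) = 1 := b.one_of_mem_closedBall (mem_closedBall_self (by norm_num))
    rw [h3] at h2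
    simp at h2
  · have h1 : MemLp (fun s => ((b s : ℝ) : ℂ)) 2 (volume : Measure ℝ) :=
      hb.continuous.memLp_of_hasCompactSupport hbc
    have h2 := eLpNorm_nnreal_pow_eq_lintegral (f := fun s => ((b s : ℝ) : ℂ))
      (μ := (volume : Measure ℝ)) (p := 2) two_ne_zero
    have h3 : ∫⁻ s, ‖((b s : ℝ) : ℂ)‖ₑ ^ 2 = eLpNorm (fun s => ((b s : ℝ) : ℂ)) 2 volume ^ 2 := by
      simpa using h2.symm
    rw [h3]
    exact (ENNReal.pow_lt_top h1.2).ne

theorem measurable_init (k : ℕ) : Measurable (init k) := (contDiff_init k).continuous.measurable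

theorem I_comb {k : ℕ} {A : Set (E k)} (hA : MeasurableSet A) (G : E k → ℂ) (χ : ℝ → ℂ)
    (z : ℝ × E k) :
    I {ζ : E (k + 1) | init k ζ ∈ A} (fun ζ => χ (ζ (Fin.last k)) * G (init k ζ)) (comb k z) =
      J χ z.1 * I A G z.2 := by
  have hm : MeasurableSet {ζ : E (k + 1) | init k ζ ∈ A} := measurable_init k hA
  rw [I_eq_indicator hm, I_eq_indicator hA, J]
  rw [← (mp_comb k).integral_comp (comb k).measurableEmbedding]
  have h1 := integral_prod_mul (μ := (volume : Measure ℝ)) (ν := (volume : Measure (E k)))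
    (fun s : ℝ => Complex.exp (2 * Real.pi * Complex.I * ((z.1 * s : ℝ) : ℂ)) * χ s)
    (A.indicator fun ξ => ee z.2 ξ * G ξ)
  rw [← h1]
  refine integral_congr_ae (Eventually.of_forall fun w => ?_)
  simp only
  by_cases hw : w.2 ∈ A
  · rw [indicator_of_mem (show comb k w ∈ {ζ : E (k + 1) | init k ζ ∈ A} by
      simpa [init_comb] using hw), indicator_of_mem hw, comb_last, init_comb]
    unfold ee
    rw [inner_comb]
    push_cast
    rw [mul_add, Complex.exp_add]
    ring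
  · rw [indicator_of_notMem (show comb k w ∉ {ζ : E (k + 1) | init k ζ ∈ A} by
      simpa [init_comb] using hw), indicator_of_notMem hw, mul_zero]

/-- DROPPING THE LAST COORDINATE -/
theorem FM.drop {k : ℕ} {ι : Type*} {𝒜 : ι → Set (E k)} {C : ℝ≥0}
    (h𝒜 : ∀ i, MeasurableSet (𝒜 i))
    (h : FM (fun i => {ζ : E (k + 1) | init k ζ ∈ 𝒜 i}) C) : FM 𝒜 C := by
  obtain ⟨χ, hχ, hχc, h0, htop⟩ := exists_chi
  intro F G hG hGc
  have hGi : Integrable G := hG.continuous.integrable_of_hasCompactSupport hGc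
  have hG' : ContDiff ℝ ∞ fun ζ : E (k + 1) => χ (ζ (Fin.last k)) * G (init k ζ) := by
    refine ContDiff.mul (hχ.comp ?_) (hG.comp (contDiff_init k))
    exact (contDiff_piLp_apply (p := 2) (i := Fin.last k) :
      ContDiff ℝ ∞ fun x : E (k + 1) => x (Fin.last k))
  have hGc' : HasCompactSupport fun ζ : E (k + 1) => χ (ζ (Fin.last k)) * G (init k ζ) := by
    refine HasCompactSupport.intro
      ((hχc.isCompact.prod hGc.isCompact).image (continuous_comb k)) fun ζ hζ => ?_
    by_contra hne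
    apply hζ
    refine ⟨(ζ (Fin.last k), init k ζ), ⟨?_, ?_⟩, comb_surj k ζ⟩
    · exact subset_tsupport _ (left_ne_zero_of_mul hne)
    · exact subset_tsupport _ (right_ne_zero_of_mul hne)
  have h1 := h F _ hG' hGc'
  have h2 : ∫⁻ x, (F.sup fun i => ‖I {ζ : E (k + 1) | init k ζ ∈ 𝒜 i}
      (fun ζ => χ (ζ (Fin.last k)) * G (init k ζ)) x‖ₑ) ^ 2 =
      (∫⁻ t, ‖J χ t‖ₑ ^ 2) * ∫⁻ x, (F.sup fun i => ‖I (𝒜 i) G x‖ₑ) ^ 2 := by
    rw [← (mp_comb k).lintegral_comp_emb (comb k).measurableEmbedding]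
    rw [← lintegral_prod_mul (μ := (volume : Measure ℝ)) (ν := (volume : Measure (E k)))]
    · refine lintegral_congr fun z => ?_
      rw [← mul_pow, mul_finset_sup]
      congr 2
      ext i
      rw [I_comb (h𝒜 i), enorm_mul]
    · have hJ : Measurable (J χ) := by
        have : J χ = fun t => ((𝓕⁻ (hχc.toSchwartzMap hχ) : 𝓢(ℝ, ℂ)) t) := by
          ext t
          rw [SchwartzMap.fourierInv_coe, Real.fourierInv_eq']
          unfold J
          refine integral_congr_ae (Eventually.of_forall fun s => ?_)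
          simp only [smul_eq_mul]
          congr 1
          · congr 1
            simp only [RCLike.inner_apply, conj_trivial]
            push_cast
            ring
        rw [this]
        exact (𝓕⁻ (hχc.toSchwartzMap hχ) : 𝓢(ℝ, ℂ)).continuous.measurable
      exact (hJ.enorm.pow_const 2).aemeasurable
    · exact (measurable_sup F hGi).aemeasurable
  have h3 : ∫⁻ ζ : E (k + 1), ‖χ (ζ (Fin.last k)) * G (init k ζ)‖ₑ ^ 2 =
      (∫⁻ s, ‖χ s‖ₑ ^ 2) * ∫⁻ ξ, ‖G ξ‖ₑ ^ 2 := by
    rw [← (mp_comb k).lintegral_comp_emb (comb k).measurableEmbedding]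
    rw [← lintegral_prod_mul (μ := (volume : Measure ℝ)) (ν := (volume : Measure (E k)))]
    · refine lintegral_congr fun z => ?_
      rw [comb_last, init_comb, enorm_mul, mul_pow]
    · exact (hχ.continuous.enorm.measurable.pow_const 2).aemeasurable
    · exact (hG.continuous.enorm.measurable.pow_const 2).aemeasurable
  rw [h2, h3, lintegral_J hχ hχc, mul_left_comm] at h1
  exact (ENNReal.mul_le_mul_iff_right h0 htop).1 h1

end Pool.Agent.H311.PM
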