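import Pool.Agent.H311.PM.Asm

/-!
# The Schrödinger form of the paraboloid estimate
-/

set_option autoImplicit false

open MeasureTheory Metric Set Filter Topology FourierTransform
open scoped ENNReal NNReal Real RealInnerProductSpace ContDiff SchwartzMap Pointwise

namespace Pool.Agent.H311.PM

variable {n : ℕ}

/-- the sum of the squares of the first `n` coordinates -/
noncomputable def sq (n : ℕ) (ζ : E (n + 1)) : ℝ := ∑ i : Fin n, ζ i.castSucc ^ 2

/-- add `c` times the sum of squares to the last coordinate -/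
noncomputable def shear (n : ℕ) (c : ℝ) (ζ : E (n + 1)) : E (n + 1) :=
  ζ + EuclideanSpace.single (Fin.last n) (c * sq n ζ)

theorem shear_last (c : ℝ) (ζ : E (n + 1)) :
    shear n c ζ (Fin.last n) = ζ (Fin.last n) + c * sq n ζ := by
  simp [shear]

theorem shear_castSucc (c : ℝ) (ζ : E (n + 1)) (i : Fin n) :
    shear n c ζ i.castSucc = ζ i.castSucc := by
  have : ¬ i.castSucc = Fin.last n := (Fin.castSucc_lt_last i).ne
  simp [shear, this]

theorem sq_shear (c : ℝ) (ζ : E (n + 1)) : sq n (shear n c ζ) = sq n ζ := by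
  unfold sq
  simp_rw [shear_castSucc]

theorem shear_shear (c d : ℝ) (ζ : E (n + 1)) : shear n c (shear n d ζ) = shear n (c + d) ζ := by
  ext i
  refine Fin.lastCases ?_ (fun j => ?_) i
  · rw [shear_last, shear_last, shear_last, sq_shear]
    ring
  · rw [shear_castSucc, shear_castSucc, shear_castSucc]

theorem shear_zero (ζ : E (n + 1)) : shear n 0 ζ = ζ := by
  simp [shear]

theorem contDiff_sq : ContDiff ℝ ∞ (sq n) := by
  unfold sq
  refine ContDiff.sum fun i _ => ContDiff.pow ?_ 2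
  exact (contDiff_piLp_apply (p := 2) (i := i.castSucc) :
    ContDiff ℝ ∞ fun x : E (n + 1) => x i.castSucc)

theorem contDiff_shear (c : ℝ) : ContDiff ℝ ∞ (shear n c) := by
  unfold shear
  refine contDiff_id.add ?_
  have h1 : ∀ t : ℝ, EuclideanSpace.single (Fin.last n) t =
      t • (EuclideanSpace.single (Fin.last n) (1 : ℝ) : E (n + 1)) := by
    intro t
    ext i
    simp [PiLp.single_apply]
  have h2 : (fun ζ : E (n + 1) => (EuclideanSpace.single (Fin.last n) (c * sq n ζ) : E (n + 1))) =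
      fun ζ => (c * sq n ζ) • (EuclideanSpace.single (Fin.last n) (1 : ℝ) : E (n + 1)) :=
    funext fun ζ => h1 _
  show ContDiff ℝ ∞ (fun ζ : E (n + 1) =>
    (EuclideanSpace.single (Fin.last n) (c * sq n ζ) : E (n + 1)))
  rw [h2]
  exact (contDiff_const.mul contDiff_sq).smul contDiff_const

/-- the shear as a homeomorphism -/
noncomputable def shearH (n : ℕ) (c : ℝ) : E (n + 1) ≃ₜ E (n + 1) where
  toFun := shear n c
  invFun := shear n (-c)
  left_inv ζ := by rw [shear_shear, neg_add_cancel, shear_zero]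
  right_inv ζ := by rw [shear_shear, add_neg_cancel, shear_zero]
  continuous_toFun := (contDiff_shear c).continuous
  continuous_invFun := (contDiff_shear (-c)).continuous

theorem mp_shear (c : ℝ) : MeasurePreserving (shear n c) volume volume := by
  have h1 : MeasurePreserving (fun z : E n × ℝ => (z.1, z.2 + c * ‖z.1‖ ^ 2))
      (volume.prod volume) (volume.prod volume) := by
    refine MeasurePreserving.skew_product (g := fun y t => t + c * ‖y‖ ^ 2)
      (MeasurePreserving.id volume) ?_ ?_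
    · fun_prop
    · refine Eventually.of_forall fun y => ?_
      exact (measurePreserving_add_right volume (c * ‖y‖ ^ 2)).map_eq
  have h2 : MeasurePreserving (comb n ∘ Prod.swap ∘ (fun z : E n × ℝ => (z.1, z.2 + c * ‖z.1‖ ^ 2))
      ∘ Prod.swap ∘ (comb n).symm) volume volume :=
    (mp_comb n).comp ((Measure.measurePreserving_swap).comp (h1.comp
      ((Measure.measurePreserving_swap).comp ((mp_comb n).symm))))
  have h3 : shear n c = comb n ∘ Prod.swap ∘ (fun z : E n × ℝ => (z.1, z.2 + c * ‖z.1‖ ^ 2))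
      ∘ Prod.swap ∘ (comb n).symm := by
    ext ζ i
    have h4 : (comb n).symm ζ = (ζ (Fin.last n), init n ζ) := by
      rw [MeasurableEquiv.symm_apply_eq, comb_surj]
    simp only [Function.comp_apply, h4, Prod.swap_prod_mk]
    refine Fin.lastCases ?_ (fun j => ?_) i
    · rw [shear_last, comb_last, norm_init_sq]
      rfl
    · rw [shear_castSucc, comb_castSucc]
      rfl
  rw [h3]
  exact h2

/-- the Schrödinger form of the truncated integral -/
noncomputable def SI (r : ℝ) (G : E (n + 1) → ℂ) (x : E (n + 1)) : ℂ :=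
  ∫ ζ in {ζ : E (n + 1) | ζ (Fin.last n) ≤ r}, Complex.exp (2 * Real.pi * Complex.I *
    ((⟪x, ζ⟫ - x (Fin.last n) * ∑ i : Fin n, ζ i.castSucc ^ 2 : ℝ) : ℂ)) * G ζ

theorem inner_shear (x ζ : E (n + 1)) :
    ⟪x, shear n (-1) ζ⟫ = ⟪x, ζ⟫ - x (Fin.last n) * sq n ζ := by
  rw [PiLp.inner_apply, PiLp.inner_apply, Fin.sum_univ_castSucc, Fin.sum_univ_castSucc]
  simp only [shear_last, shear_castSucc, RCLike.inner_apply, conj_trivial]
  ring

theorem I_eq_SI (r : ℝ) (G : E (n + 1) → ℂ) (x : E (n + 1)) :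
    I {ζ : E (n + 1) | pv n 0 ζ ≤ r} G x = SI r (fun ζ => G (shear n (-1) ζ)) x := by
  unfold I SI
  have h1 := (mp_shear (n := n) (-1)).setIntegral_preimage_emb
    (shearH n (-1)).measurableEmbedding
    (fun ζ => Complex.exp (2 * Real.pi * Complex.I * ((⟪x, ζ⟫ : ℝ) : ℂ)) * G ζ)
    {ζ : E (n + 1) | pv n 0 ζ ≤ r}
  rw [← h1]
  have h2 : shear n (-1) ⁻¹' {ζ : E (n + 1) | pv n 0 ζ ≤ r} =
      {ζ : E (n + 1) | ζ (Fin.last n) ≤ r} := by
    ext ζ
    show pv n 0 (shear n (-1) ζ) ≤ r ↔ ζ (Fin.last n) ≤ r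
    have h3 : pv n 0 (shear n (-1) ζ) =
      shear n (-1) ζ (Fin.last n) + sq n (shear n (-1) ζ) := rfl
    rw [h3, sq_shear, shear_last]
    ring_nf
  rw [h2]
  refine integral_congr_ae (Eventually.of_forall fun ζ => ?_)
  simp only
  rw [inner_shear]
  rfl

/-- the paraboloid estimate and its Schrödinger form -/
theorem sm_iff_schr {C : ℝ≥0} : SM (fun r : ℝ => {ζ : E (n + 1) | pv n 0 ζ ≤ r}) C ↔
    ∀ G : E (n + 1) → ℂ, ContDiff ℝ ∞ G → HasCompactSupport G →
      ∫⁻ x, (⨆ r : ℝ, ‖SI r G x‖ₑ) ^ 2 ≤ C * ∫⁻ ζ, ‖G ζ‖ₑ ^ 2 := by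
  constructor
  · intro h G hG hGc
    set G1 : E (n + 1) → ℂ := fun ζ => G (shear n 1 ζ) with hG1
    have hG1s : ContDiff ℝ ∞ G1 := hG.comp (contDiff_shear 1)
    have hG1c : HasCompactSupport G1 := hGc.comp_homeomorph (shearH n 1)
    set f : 𝓢(E (n + 1), ℂ) := 𝓕⁻ (hG1c.toSchwartzMap hG1s) with hf
    have h3 : 𝓕 f = hG1c.toSchwartzMap hG1s := by rw [hf, fourier_fourierInv_eq]
    have h2 : (𝓕 (f : E (n + 1) → ℂ)) = G1 := by
      ext s
      have h4 : (𝓕 f : 𝓢(E (n + 1), ℂ)) s = G1 s := by rw [h3]; rfl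
      rw [← SchwartzMap.fourier_coe]
      exact h4
    have h1 := h f
    rw [plancherel, h2] at h1
    have h5 : ∀ x r, I {ζ : E (n + 1) | pv n 0 ζ ≤ r} G1 x = SI r G x := by
      intro x r
      rw [I_eq_SI]
      congr 1
      ext ζ
      rw [hG1]
      simp only
      rw [shear_shear, add_neg_cancel, shear_zero]
    simp_rw [h5] at h1
    have h6 : ∫⁻ ζ, ‖G1 ζ‖ₑ ^ 2 = ∫⁻ ζ, ‖G ζ‖ₑ ^ 2 :=
      (mp_shear (n := n) 1).lintegral_comp_emb (shearH n 1).measurableEmbedding
        (fun ζ => ‖G ζ‖ₑ ^ 2)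
    rw [h6] at h1
    exact h1
  · intro h
    refine SM.of_FM (continuous_pv n 0).measurable ?_
    intro F G hG hGc
    have h1 := h (fun ζ => G (shear n (-1) ζ)) (hG.comp (contDiff_shear (-1)))
      (hGc.comp_homeomorph (shearH n (-1)))
    have h6 : ∫⁻ ζ, ‖G (shear n (-1) ζ)‖ₑ ^ 2 = ∫⁻ ζ, ‖G ζ‖ₑ ^ 2 :=
      (mp_shear (n := n) (-1)).lintegral_comp_emb (shearH n (-1)).measurableEmbedding
        (fun ζ => ‖G ζ‖ₑ ^ 2)
    rw [h6] at h1
    refine le_trans (lintegral_mono fun x => ?_) h1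
    refine pow_le_pow_left' (Finset.sup_le fun r _ => ?_) 2
    rw [I_eq_SI]
    exact le_iSup (fun r => ‖SI r (fun ζ => G (shear n (-1) ζ)) x‖ₑ) r

end Pool.Agent.H311.PM
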