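import Pool.Agent.H311.PM.Drop

/-!
# From finite subfamilies and compactly supported functions to the maximal estimate, and back
-/

set_option autoImplicit false

open MeasureTheory Metric Set Filter Topology FourierTransform
open scoped ENNReal NNReal Real RealInnerProductSpace ContDiff SchwartzMap

namespace Pool.Agent.H311.PM

variable {n : ℕ}

/-- the maximal estimate for all Schwartz functions -/
def SM {n : ℕ} {ι : Type*} (𝒜 : ι → Set (E n)) (C : ℝ≥0) : Prop :=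
  ∀ f : 𝓢(E n, ℂ), ∫⁻ x, (⨆ i, ‖I (𝒜 i) (𝓕 (f : E n → ℂ)) x‖ₑ) ^ 2 ≤ C * ∫⁻ x, ‖f x‖ₑ ^ 2

theorem plancherel (f : 𝓢(E n, ℂ)) :
    ∫⁻ x, ‖f x‖ₑ ^ 2 = ∫⁻ x, ‖𝓕 (f : E n → ℂ) x‖ₑ ^ 2 := by
  have h1 := SchwartzMap.norm_fourier_toL2_eq f
  rw [SchwartzMap.norm_toLp, SchwartzMap.norm_toLp,
    ENNReal.toReal_eq_toReal_iff' ((𝓕 f).memLp 2 volume).2.ne (f.memLp 2 volume).2.ne] at h1
  have h2 : ∀ g : E n → ℂ, ∫⁻ x, ‖g x‖ₑ ^ 2 = eLpNorm g 2 volume ^ 2 := by
    intro g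
    have := eLpNorm_nnreal_pow_eq_lintegral (f := g) (μ := volume) (p := 2) two_ne_zero
    simpa using this.symm
  rw [h2, h2, ← h1]
  rfl

theorem FM.of_SM {ι : Type*} {𝒜 : ι → Set (E n)} {C : ℝ≥0} (h : SM 𝒜 C) : FM 𝒜 C := by
  intro F G hG hGc
  set f : 𝓢(E n, ℂ) := 𝓕⁻ (hGc.toSchwartzMap hG) with hf
  have h3 : 𝓕 f = hGc.toSchwartzMap hG := by rw [hf, fourier_fourierInv_eq]
  have h2 : (𝓕 (f : E n → ℂ)) = G := by
    ext s
    have h4 : (𝓕 f : 𝓢(E n, ℂ)) s = G s := by rw [h3]; rfl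
    rw [← SchwartzMap.fourier_coe]
    exact h4
  have h1 := h f
  rw [plancherel, h2] at h1
  refine le_trans (lintegral_mono fun x => ?_) h1
  exact pow_le_pow_left' (Finset.sup_le fun i _ => le_iSup (fun i => ‖I (𝒜 i) G x‖ₑ) i) 2

theorem FM.comp {ι κ : Type*} {𝒜 : ι → Set (E n)} {C : ℝ≥0} (h : FM 𝒜 C) (φ : κ → ι) :
    FM (fun k => 𝒜 (φ k)) C := by
  classical
  intro F G hG hGc
  have h1 := h (F.image φ) G hG hGc
  simp_rw [Finset.sup_image] at h1
  exact h1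

theorem FM.schwartz {ι : Type*} {𝒜 : ι → Set (E n)} {C : ℝ≥0} (h : FM 𝒜 C)
    (F : Finset ι) (g : 𝓢(E n, ℂ)) :
    ∫⁻ x, (F.sup fun i => ‖I (𝒜 i) g x‖ₑ) ^ 2 ≤ C * ∫⁻ ξ, ‖g ξ‖ₑ ^ 2 := by
  let b : ℕ → ContDiffBump (0 : E n) := fun j => ⟨j + 1, j + 2, by positivity, by linarith⟩
  let gg : ℕ → E n → ℂ := fun j ξ => ((b j ξ : ℝ) : ℂ) * g ξ
  have hb : ∀ j, ContDiff ℝ ∞ fun ξ => ((b j ξ : ℝ) : ℂ) := fun j =>
    Complex.ofRealCLM.contDiff.comp (b j).contDiff
  have hg : ∀ j, ContDiff ℝ ∞ (gg j) := fun j => (hb j).mul (g.smooth ⊤)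
  have hgc : ∀ j, HasCompactSupport (gg j) := fun j =>
    ((b j).hasCompactSupport.comp_left (g := fun x : ℝ => (x : ℂ)) Complex.ofReal_zero).mul_right
  have hle : ∀ j ξ, ‖gg j ξ‖ ≤ ‖g ξ‖ := by
    intro j ξ
    simp only [gg]
    rw [norm_mul, Complex.norm_real, Real.norm_of_nonneg (b j).nonneg]
    exact mul_le_of_le_one_left (norm_nonneg _) (b j).le_one
  have hgi : Integrable g := g.integrable
  have hlim : ∀ i x, Tendsto (fun j => I (𝒜 i) (gg j) x) atTop (𝓝 (I (𝒜 i) g x)) := by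
    intro i x
    unfold I
    refine tendsto_integral_of_dominated_convergence (fun ξ => ‖g ξ‖) ?_
      hgi.norm.integrableOn ?_ ?_
    · intro j
      exact (integrable_ee_mul ((hg j).continuous.integrable_of_hasCompactSupport (hgc j))
        x).aestronglyMeasurable.restrict
    · intro j
      refine Eventually.of_forall fun ξ => ?_
      have := norm_ee x ξ
      unfold ee at this
      rw [norm_mul, this, one_mul]
      exact hle j ξ
    · refine Eventually.of_forall fun ξ => ?_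
      refine tendsto_const_nhds.congr' ?_
      filter_upwards [eventually_ge_atTop ⌈‖ξ‖⌉₊] with j hj
      have h1 : b j ξ = 1 := by
        refine (b j).one_of_mem_closedBall ?_
        simp only [mem_closedBall, dist_zero_right]
        have := Nat.ceil_le.1 hj
        simp only [b]
        linarith
      simp only [gg]
      rw [h1, Complex.ofReal_one, one_mul]
  have h1 : ∀ x, (F.sup fun i => ‖I (𝒜 i) g x‖ₑ) ^ 2 =
      liminf (fun j => (F.sup fun i => ‖I (𝒜 i) (gg j) x‖ₑ) ^ 2) atTop := by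
    intro x
    symm
    refine Tendsto.liminf_eq ?_
    refine Tendsto.comp (ENNReal.continuous_pow 2).continuousAt ?_
    refine Tendsto.finset_sup_nhds_apply fun i _ => ?_
    exact (hlim i x).enorm
  simp_rw [h1]
  refine (lintegral_liminf_le fun j => measurable_sup F
    ((hg j).continuous.integrable_of_hasCompactSupport (hgc j))).trans ?_
  refine (liminf_le_liminf (v := fun _ => C * ∫⁻ ξ, ‖g ξ‖ₑ ^ 2)
    (Eventually.of_forall fun j => ?_)).trans ?_
  · refine (h F (gg j) (hg j) (hgc j)).trans ?_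
    refine mul_le_mul_right (lintegral_mono fun ξ => ?_) _
    refine pow_le_pow_left' ?_ 2
    rw [← ofReal_norm, ← ofReal_norm]
    exact ENNReal.ofReal_le_ofReal (hle j ξ)
  · simp

theorem iSup_rat {v : E n → ℝ} (hv : Measurable v) {g : E n → ℂ} (hg : Integrable g) (x : E n) :
    ⨆ r : ℝ, ‖I {ζ | v ζ ≤ r} g x‖ₑ = ⨆ q : ℚ, ‖I {ζ | v ζ ≤ (q : ℝ)} g x‖ₑ := by
  refine le_antisymm (iSup_le fun r => ?_)
    (iSup_le fun q => le_iSup (fun r : ℝ => ‖I {ζ | v ζ ≤ r} g x‖ₑ) q)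
  have h1 : ∀ j : ℕ, ∃ q : ℚ, r < q ∧ (q : ℝ) < r + 1 / (j + 1) := fun j =>
    exists_rat_btwn (by have : (0 : ℝ) < 1 / (j + 1) := by positivity
                        linarith)
  choose q hq using h1
  have h2 : Tendsto (fun j => I {ζ | v ζ ≤ (q j : ℝ)} g x) atTop (𝓝 (I {ζ | v ζ ≤ r} g x)) := by
    refine tendsto_I (fun j => hv measurableSet_Iic) (hv measurableSet_Iic) hg ?_ x
    refine Eventually.of_forall fun ζ => ?_
    by_cases hz : v ζ ≤ r
    · refine Eventually.of_forall fun j => ?_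
      exact ⟨fun _ => hz, fun _ => hz.trans (hq j).1.le⟩
    · have h3 : 0 < v ζ - r := by linarith [not_le.1 hz]
      have h4 : ∀ᶠ j : ℕ in atTop, 1 / ((j : ℝ) + 1) < v ζ - r :=
        tendsto_one_div_add_atTop_nhds_zero_nat.eventually_lt_const h3
      filter_upwards [h4] with j hj
      refine ⟨fun h5 => ?_, fun h5 => absurd h5 hz⟩
      have h6 : v ζ ≤ q j := h5
      linarith [(hq j).2]
  refine le_of_tendsto h2.enorm (Eventually.of_forall fun j => ?_)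
  exact le_iSup (fun q : ℚ => ‖I {ζ | v ζ ≤ (q : ℝ)} g x‖ₑ) (q j)

theorem SM.of_FM {v : E n → ℝ} (hv : Measurable v) {C : ℝ≥0}
    (h : FM (fun r : ℝ => {ζ | v ζ ≤ r}) C) : SM (fun r : ℝ => {ζ | v ζ ≤ r}) C := by
  intro f
  have hgi : Integrable (𝓕 (f : E n → ℂ)) := by
    rw [← SchwartzMap.fourier_coe]
    exact (𝓕 f).integrable
  simp_rw [iSup_rat hv hgi]
  have h1 : ∀ x, (⨆ q : ℚ, ‖I {ζ | v ζ ≤ (q : ℝ)} (𝓕 (f : E n → ℂ)) x‖ₑ) ^ 2 =
      ⨆ F : Finset ℚ, (F.sup fun q => ‖I {ζ | v ζ ≤ (q : ℝ)} (𝓕 (f : E n → ℂ)) x‖ₑ) ^ 2 := by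
    intro x
    have h2 : ∀ a : ℚ → ℝ≥0∞, (⨆ q, a q) ^ 2 = ⨆ F : Finset ℚ, (F.sup a) ^ 2 := by
      intro a
      rw [iSup_eq_iSup_finset]
      have h3 : Monotone fun F : Finset ℚ => F.sup a := fun F F' hF => Finset.sup_mono hF
      have h4 : ∀ F : Finset ℚ, ⨆ i ∈ F, a i = F.sup a := fun F => (Finset.sup_eq_iSup F a).symm
      simp_rw [h4]
      exact ENNReal.iSup_pow_of_ne_zero two_ne_zero _
    exact h2 _
  simp_rw [h1]
  rw [lintegral_iSup_directed (fun F => (measurable_sup F hgi).aemeasurable)]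
  · refine iSup_le fun F => ?_
    have h5 := (h.comp (fun q : ℚ => (q : ℝ))).schwartz F (𝓕 f)
    rw [plancherel f]
    rw [SchwartzMap.fourier_coe] at h5
    exact h5
  · intro F F'
    refine ⟨F ∪ F', fun x => ?_, fun x => ?_⟩
    · exact pow_le_pow_left' (Finset.sup_mono Finset.subset_union_left) 2
    · exact pow_le_pow_left' (Finset.sup_mono Finset.subset_union_right) 2

end Pool.Agent.H311.PM
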